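import Pool.Agent.X190.FreeProd3

/-! Infinite reduced free powers of `O_∞` with respect to different states need not be isomorphic by
a state preserving isomorphism. -/

set_option autoImplicit false

namespace Pool.Agent.Results.MP_0b3510_an.NotStateIsomorphic

open Pool.Agent.X190.States Pool.Agent.X190.Fock Pool.Agent.X190.Cuntz Pool.Agent.X190.FreeProd

/-- There are states `ω₁`, `ω₂` on (a copy `O` of) `O_∞` for which the reduced free products of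
countably infinitely many copies of `(O_∞, ω_j)` exist, and whatever realisations `(D₁, ρ₁)`,
`(D₂, ρ₂)` of them are taken, no *-isomorphism `θ : D₁ → D₂` satisfies `ρ₂ ∘ θ = ρ₁`. -/
theorem result : ∃ (O : Type) (_ : CStarAlgebra O) (s : ℕ → O), IsCuntzInfinity O s ∧
    ∃ ω₁ ω₂ : O →L[ℂ] ℂ, IsState ω₁ ∧ IsState ω₂ ∧
      (∃ (D₁ : Type) (_ : CStarAlgebra D₁) (ρ₁ : D₁ →L[ℂ] ℂ) (e₁ : ℕ → (O →⋆ₐ[ℂ] D₁)),
        IsRedFreeProd (fun _ : ℕ => O) (fun _ => ω₁) ρ₁ e₁) ∧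
      (∃ (D₂ : Type) (_ : CStarAlgebra D₂) (ρ₂ : D₂ →L[ℂ] ℂ) (e₂ : ℕ → (O →⋆ₐ[ℂ] D₂)),
        IsRedFreeProd (fun _ : ℕ => O) (fun _ => ω₂) ρ₂ e₂) ∧
      ∀ (D₁ D₂ : Type) [CStarAlgebra D₁] [CStarAlgebra D₂] (ρ₁ : D₁ →L[ℂ] ℂ) (ρ₂ : D₂ →L[ℂ] ℂ)
        (e₁ : ℕ → (O →⋆ₐ[ℂ] D₁)) (e₂ : ℕ → (O →⋆ₐ[ℂ] D₂)),
        IsRedFreeProd (fun _ : ℕ => O) (fun _ => ω₁) ρ₁ e₁ →
        IsRedFreeProd (fun _ : ℕ => O) (fun _ => ω₂) ρ₂ e₂ →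
        ¬ ∃ θ : D₁ ≃⋆ₐ[ℂ] D₂, ∀ x, ρ₂ (θ x) = ρ₁ x := by
  refine ⟨OO, inferInstance, (sys ℕ).s, isCuntzInfinity, vac ℕ, mix 0, vac_state, mix_state 0,
    exists_redFreeProd (fun _ : ℕ => OO) (fun _ => vac ℕ) (fun _ => vac_state),
    exists_redFreeProd (fun _ : ℕ => OO) (fun _ => mix 0) (fun _ => mix_state 0), ?_⟩
  intro D₁ D₂ _ _ ρ₁ ρ₂ e₁ e₂ h₁ h₂
  rintro ⟨θ, hθ⟩
  have hP := pdense h₁ (fun _ => vac_state) (fun _ => vac_pdense)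
  exact not_pdense h₂ (j := 0) (b := pr 0) (mix_central 0) mix_crit (hP.iso θ hθ)

end Pool.Agent.Results.MP_0b3510_an.NotStateIsomorphic
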